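import Pool.Agent.H31.SW.Tools

/-!
# MP_52e316_nt, board swl_modules, row L3: three differences of a normalised local datum
-/

set_option autoImplicit false

open NumberField NumberField.InfinitePlace MeasureTheory Set Filter Complex
open scoped Topology

namespace Pool.Agent.H68.SWL

open Pool.Agent.H31.SW
open Pool.Agent.H29.DW (dg Rl lf)

/-- the bound after three differences -/
private noncomputable def g3 (n : ℕ) : ℝ :=
  2 ^ n * (2 ^ n * (2 ^ n * (1 * 1) * (2 ^ n * (1 * 1))) *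
    (2 ^ n * (2 ^ n * (1 * 1) * (2 ^ n * (1 * 1)))))

private theorem g3_nonneg (n : ℕ) : 0 ≤ g3 n := by
  unfold g3
  positivity

private theorem dif3 {n : ℕ} {g : ℂ} {F : ℂ → ℂ} (h : DS n 1 g 2 F) (b₁ b₂ b₃ : ℂ) :
    DS n (g3 n) g 2 (dif b₃ (dif b₂ (dif b₁ F))) := by
  have h1 := DS.dif (by norm_num) h b₁
  have h2 := DS.dif (by positivity) h1 b₂
  exact DS.dif (by positivity) h2 b₃

private theorem pow_aux {x : ℝ} (k : ℕ) (hx : 0 ≤ x) :
    (1 + x) ^ (-(k : ℝ)) = ((1 + x) ^ k)⁻¹ := by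
  rw [Real.rpow_neg (by linarith), Real.rpow_natCast]

/-- Row L3 -/
theorem pf_L3 (hL1 : W_L1) (hNS : W_NS) : W_L3 := by
  intro k
  obtain ⟨C1, hC1, H1⟩ := hL1 k
  obtain ⟨C2, hC2, H2⟩ := hNS k 2 (by norm_num)
  have hg := g3_nonneg (k + 3)
  refine ⟨C1 + (C2 * g3 (k + 3) * 2 ^ k + 36 * g3 (k + 3) * 2 ^ k), by positivity, ?_⟩
  intro r t Λ a g b₁ b₂ b₃ X F hF hb1 hb2 hb3 hb hX
  cases t with
  | true =>
    obtain ⟨h1, h2, h3, h4, h5, A, hA, rfl⟩ := hF.one rfl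
    obtain ⟨n1, n2, n3, m1, m2, m3⟩ := hb rfl
    have h6 := H1 r Λ a b₁ b₂ b₃ X A h1 h2 h3 h4 h5 hA hb1 hb2 hb3 n1 n2 n3 m1 m2 m3 hX
    have e1 : Mt true Λ = ‖Λ‖ := if_pos rfl
    have e2 : Ph true Λ b₁ b₂ b₃ = ‖b₁‖ * ‖b₂‖ * ‖b₃‖ / ‖Λ‖ ^ 2 := if_pos rfl
    rw [e1, e2]
    refine h6.trans ?_
    have h7 : C1 ≤ C1 + (C2 * g3 (k + 3) * 2 ^ k + 36 * g3 (k + 3) * 2 ^ k) := by
      have : 0 ≤ C2 * g3 (k + 3) * 2 ^ k + 36 * g3 (k + 3) * 2 ^ k := by positivity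
      linarith
    gcongr
  | false =>
    have hD := dif3 (hF.two rfl) b₁ b₂ b₃
    have hDk : DS k (g3 (k + 3)) g 2 (dif b₃ (dif b₂ (dif b₁ F))) := hD.of_le (by omega)
    have e1 : Mt false Λ = 1 := if_neg (by decide)
    have e2 : Ph false Λ b₁ b₂ b₃ = 0 := if_neg (by decide)
    rw [e1, e2, add_zero, Real.one_rpow, one_pow, mul_one, mul_one, mul_one, div_one,
      pow_aux k (norm_nonneg X)]
    have e3 : FF r (dif b₃ (dif b₂ (dif b₁ F))) X =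
        itg r (fun w => dif b₃ (dif b₂ (dif b₁ F)) w * EE (X * w)) := by
      unfold FF
      exact itg_congr fun w _ => mul_comm _ _
    rw [e3]
    by_cases hX1 : 1 ≤ ‖X‖
    · have h1 := H2 r g (fun w => X * w) (fun _ => X) (dif b₃ (dif b₂ (dif b₁ F)))
        (g3 (k + 3)) ‖X‖ hg (by linarith)
        (fun w _ => by simpa using (hasDerivAt_id w).const_mul X)
        (fun w _ _ => hX) (fun w _ => le_rfl) hDk
      refine h1.trans ?_
      have h3 : (1 + ‖X‖) ^ k ≤ 2 ^ k * ‖X‖ ^ k := by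
        rw [← mul_pow]
        exact pow_le_pow_left₀ (by positivity) (by linarith) k
      have h4 : (‖X‖ ^ k)⁻¹ ≤ 2 ^ k * ((1 + ‖X‖) ^ k)⁻¹ := by
        have p1 : 0 < ‖X‖ ^ k := by positivity
        have p2 : 0 < (1 + ‖X‖) ^ k := by positivity
        rw [← div_eq_mul_inv, inv_eq_one_div, div_le_div_iff₀ p1 p2]
        linarith
      have h5 : 0 ≤ C2 * g3 (k + 3) := by positivity
      have h6 : 0 ≤ ((1 + ‖X‖) ^ k)⁻¹ := by positivity
      calc C2 * g3 (k + 3) / ‖X‖ ^ k = C2 * g3 (k + 3) * (‖X‖ ^ k)⁻¹ := div_eq_mul_inv _ _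
        _ ≤ C2 * g3 (k + 3) * (2 ^ k * ((1 + ‖X‖) ^ k)⁻¹) := mul_le_mul_of_nonneg_left h4 h5
        _ = C2 * g3 (k + 3) * 2 ^ k * ((1 + ‖X‖) ^ k)⁻¹ := by ring
        _ ≤ _ := by
          refine mul_le_mul_of_nonneg_right ?_ h6
          have : 0 ≤ 36 * g3 (k + 3) * 2 ^ k := by positivity
          linarith
    · have hX2 : ‖X‖ < 1 := not_le.1 hX1
      have h1 : ‖itg r (fun w => dif b₃ (dif b₂ (dif b₁ F)) w * EE (X * w))‖ ≤
          (2 * 2 + 8 * 2 ^ 2) * g3 (k + 3) := by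
        refine norm_itg_le (w₀ := g) (by norm_num) hg (fun w => ?_) (fun w hw => ?_)
        · rw [norm_mul, norm_EE, mul_one]
          exact hD.norm_le hg w
        · rw [hD.eq_zero hw, zero_mul]
      refine h1.trans ?_
      have p2 : 0 < (1 + ‖X‖) ^ k := by positivity
      have h3 : (1 + ‖X‖) ^ k ≤ 2 ^ k := pow_le_pow_left₀ (by positivity) (by linarith) k
      have h4 : 1 ≤ 2 ^ k * ((1 + ‖X‖) ^ k)⁻¹ := by
        rw [← div_eq_mul_inv, le_div_iff₀ p2, one_mul]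
        exact h3
      have h6 : 0 ≤ ((1 + ‖X‖) ^ k)⁻¹ := by positivity
      calc (2 * 2 + 8 * 2 ^ 2) * g3 (k + 3) = 36 * g3 (k + 3) * 1 := by ring
        _ ≤ 36 * g3 (k + 3) * (2 ^ k * ((1 + ‖X‖) ^ k)⁻¹) :=
          mul_le_mul_of_nonneg_left h4 (by positivity)
        _ = 36 * g3 (k + 3) * 2 ^ k * ((1 + ‖X‖) ^ k)⁻¹ := by ring
        _ ≤ _ := by
          refine mul_le_mul_of_nonneg_right ?_ h6
          have : 0 ≤ C2 * g3 (k + 3) * 2 ^ k := by positivity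
          linarith

end Pool.Agent.H68.SWL
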