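import Pool.Agent.H31.SW.TargetsG

/-!
# MP_52e316_nt, board swl_modules, row TD: three differencing steps
-/

set_option autoImplicit false

open NumberField NumberField.InfinitePlace NumberField.Units
  NumberField.Units.dirichletUnitTheorem MeasureTheory Set Filter Complex
open scoped nonZeroDivisors ENNReal

namespace Pool.Agent.H68.SWL

open Pool.Agent.H25.HK Pool.Agent.H23.LB Pool.Agent.H23.LC
open Pool.Agent.H31.SW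

section

variable {K : Type} [Field K] [NumberField K]

omit [NumberField K] in
private theorem td_norm {F : K → ℂ} (h : ∀ x, ‖F x‖ ≤ 1) (g x : K) : ‖dif g F x‖ ≤ 1 := by
  unfold dif
  rw [norm_mul, RCLike.norm_conj]
  calc ‖F (x + g)‖ * ‖F x‖ ≤ 1 * 1 := mul_le_mul (h _) (h _) (norm_nonneg _) (by norm_num)
    _ = 1 := one_mul 1

omit [NumberField K] in
private theorem td_supp {F : K → ℂ} {g x : K} (h : dif g F x ≠ 0) : F x ≠ 0 := by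
  intro h0
  apply h
  unfold dif
  rw [h0, map_zero, mul_zero]

omit [NumberField K] in
/-- a sum of bounded terms over a finite support -/
private theorem td_sum {L : FI K} {F G : K → ℂ} {N : ℝ} (hfin : {x : K | x ∈ L ∧ F x ≠ 0}.Finite)
    (hG : ∀ x, ‖G x‖ ≤ 1) (hs : ∀ x, G x ≠ 0 → F x ≠ 0)
    (hN : ({x : K | x ∈ L ∧ F x ≠ 0}.ncard : ℝ) ≤ N) :
    ‖∑' x : {x : K // x ∈ L}, G x‖ ≤ N := by
  classical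
  have hpre : ((fun x : {x : K // x ∈ L} => (x : K)) ⁻¹' {x : K | x ∈ L ∧ F x ≠ 0}).Finite :=
    hfin.preimage Subtype.val_injective.injOn
  have h1 : ∑' x : {x : K // x ∈ L}, G x = ∑ x ∈ hpre.toFinset, G x := by
    refine tsum_eq_sum fun x hx => ?_
    by_contra hc
    exact hx (hpre.mem_toFinset.2 ⟨x.2, hs _ hc⟩)
  rw [h1]
  have h2 : ‖∑ x ∈ hpre.toFinset, G (x : K)‖ ≤ (hpre.toFinset.card : ℝ) := by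
    have h5 : ∑ x ∈ hpre.toFinset, ‖G (x : K)‖ ≤ ∑ _x ∈ hpre.toFinset, (1 : ℝ) :=
      Finset.sum_le_sum fun x _ => hG (x : K)
    refine (norm_sum_le _ _).trans (h5.trans ?_)
    simp
  have h3 : hpre.toFinset.card ≤ hfin.toFinset.card := by
    refine Finset.card_le_card_of_injOn (fun x => (x : K)) ?_ Subtype.val_injective.injOn
    intro x hx
    have hx' := hpre.mem_toFinset.1 (Finset.mem_coe.1 hx)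
    exact Finset.mem_coe.2 (hfin.mem_toFinset.2 hx')
  have h4 : ({x : K | x ∈ L ∧ F x ≠ 0}.ncard : ℝ) = (hfin.toFinset.card : ℝ) := by
    rw [Set.ncard_eq_toFinset_card _ hfin]
  calc ‖∑ x ∈ hpre.toFinset, G (x : K)‖ ≤ (hpre.toFinset.card : ℝ) := h2
    _ ≤ (hfin.toFinset.card : ℝ) := by exact_mod_cast h3
    _ ≤ N := by rw [← h4]; exact hN

omit [NumberField K] in
private theorem td_fin {L : FI K} {F : K → ℂ} {B : Finset K}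
    (hfin : {x : K | x ∈ L ∧ F x ≠ 0}.Finite) (hB : ∀ b ∈ B, b ∈ L) :
    {x : K | x ∈ L ∧ ∃ b ∈ B, F (x + b) ≠ 0}.Finite := by
  have h1 : {x : K | x ∈ L ∧ ∃ b ∈ B, F (x + b) ≠ 0} ⊆
      ⋃ b ∈ B, (fun x => x - b) '' {x : K | x ∈ L ∧ F x ≠ 0} := by
    rintro x ⟨hx, b, hb, hxb⟩
    refine Set.mem_iUnion₂.2 ⟨b, hb, x + b, ⟨?_, hxb⟩, by simp⟩
    exact Submodule.add_mem _ hx (hB b hb)
  exact (Set.Finite.biUnion (Finset.finite_toSet B) fun b _ => hfin.image _).subset h1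

open scoped Classical in
/-- one step -/
private theorem td_step (hWD : W_WD) {L : FI K} {F G : K → ℂ} {B : Finset K} {N ν : ℝ}
    (hfin : {x : K | x ∈ L ∧ F x ≠ 0}.Finite) (hB : ∀ b ∈ B, b ∈ L) (h0 : (0 : K) ∈ B)
    (hN : ({x : K | x ∈ L ∧ ∃ b ∈ B, F (x + b) ≠ 0}.ncard : ℝ) ≤ N)
    (hν : N / (B.card : ℝ) ≤ ν) (hG : ∀ x, ‖G x‖ ≤ 1) (hs : ∀ x, G x ≠ 0 → F x ≠ 0) :
    ‖∑' x : {x : K // x ∈ L}, G x‖ ^ 2 ≤ ν * (N + ∑ g ∈ nd B,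
      ‖∑' x : {x : K // x ∈ L}, dif g G x‖) := by
  have hfinB := td_fin hfin hB
  have hN0 : 0 ≤ N := le_trans (Nat.cast_nonneg _) hN
  have hfinG : {x : K | x ∈ L ∧ G x ≠ 0}.Finite :=
    hfin.subset fun x hx => ⟨hx.1, hs x hx.2⟩
  have hNG : ({x : K | x ∈ L ∧ ∃ b ∈ B, G (x + b) ≠ 0}.ncard : ℝ) ≤ N := by
    refine le_trans ?_ hN
    have h1 : {x : K | x ∈ L ∧ ∃ b ∈ B, G (x + b) ≠ 0} ⊆
        {x : K | x ∈ L ∧ ∃ b ∈ B, F (x + b) ≠ 0} := by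
      rintro x ⟨hx, b, hb, hxb⟩
      exact ⟨hx, b, hb, hs _ hxb⟩
    exact_mod_cast Set.ncard_le_ncard h1 hfinB
  have hNF : ({x : K | x ∈ L ∧ F x ≠ 0}.ncard : ℝ) ≤ N := by
    refine le_trans ?_ hN
    have h1 : {x : K | x ∈ L ∧ F x ≠ 0} ⊆ {x : K | x ∈ L ∧ ∃ b ∈ B, F (x + b) ≠ 0} := by
      rintro x ⟨hx, hxb⟩
      exact ⟨hx, 0, h0, by rwa [add_zero]⟩
    exact_mod_cast Set.ncard_le_ncard h1 hfinB
  have h1 := hWD K L G B N hfinG hB ⟨0, h0⟩ hNG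
  refine h1.trans ?_
  have hsum : ∑ γ ∈ (B ×ˢ B).image (fun q => q.1 - q.2),
      ‖∑' x : {x : K // x ∈ L}, dif γ G x‖ ≤ N + ∑ g ∈ nd B,
      ‖∑' x : {x : K // x ∈ L}, dif g G x‖ := by
    rw [← Finset.sum_filter_add_sum_filter_not ((B ×ˢ B).image (fun q => q.1 - q.2))
      (fun x => x ≠ 0), add_comm]
    refine add_le_add ?_ le_rfl
    have h2 : ∑ γ ∈ ((B ×ˢ B).image (fun q => q.1 - q.2)).filter (fun x => ¬ (x ≠ 0)),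
        ‖∑' x : {x : K // x ∈ L}, dif γ G x‖ ≤ ∑ γ ∈ ({0} : Finset K),
        ‖∑' x : {x : K // x ∈ L}, dif γ G x‖ := by
      refine Finset.sum_le_sum_of_subset_of_nonneg ?_ fun _ _ _ => norm_nonneg _
      intro x hx
      have hx' := (Finset.mem_filter.1 hx).2
      rw [Finset.mem_singleton]
      exact not_not.1 hx'
    refine h2.trans ?_
    rw [Finset.sum_singleton]
    exact td_sum hfin (td_norm hG 0) (fun x hx => hs x (td_supp hx)) hNF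
  have hnn : 0 ≤ ∑ γ ∈ (B ×ˢ B).image (fun q => q.1 - q.2),
      ‖∑' x : {x : K // x ∈ L}, dif γ G x‖ := Finset.sum_nonneg fun _ _ => norm_nonneg _
  have hν0 : 0 ≤ ν := le_trans (div_nonneg hN0 (Nat.cast_nonneg _)) hν
  exact mul_le_mul hν hsum hnn hν0

end

private theorem td_pow2 {ι : Type} (s : Finset ι) (f : ι → ℝ) (m : ℝ)
    (hm : (s.card : ℝ) ≤ m) : (∑ i ∈ s, f i) ^ 2 ≤ m * ∑ i ∈ s, f i ^ 2 := by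
  refine (sq_sum_le_card_mul_sum_sq).trans ?_
  exact mul_le_mul_of_nonneg_right hm (Finset.sum_nonneg fun i _ => sq_nonneg _)

private theorem td_pow4 {ι : Type} (s : Finset ι) (f : ι → ℝ) (m : ℝ)
    (hm : (s.card : ℝ) ≤ m) : (∑ i ∈ s, f i) ^ 4 ≤ m ^ 3 * ∑ i ∈ s, f i ^ 4 := by
  have hm0 : 0 ≤ m := le_trans (Nat.cast_nonneg _) hm
  have h1 := td_pow2 s f m hm
  have h2 := td_pow2 s (fun i => f i ^ 2) m hm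
  have h3 : ∑ i ∈ s, (f i ^ 2) ^ 2 = ∑ i ∈ s, f i ^ 4 :=
    Finset.sum_congr rfl fun i _ => by ring
  rw [h3] at h2
  calc (∑ i ∈ s, f i) ^ 4 = ((∑ i ∈ s, f i) ^ 2) ^ 2 := by ring
    _ ≤ (m * ∑ i ∈ s, f i ^ 2) ^ 2 := pow_le_pow_left₀ (sq_nonneg _) h1 2
    _ = m ^ 2 * (∑ i ∈ s, f i ^ 2) ^ 2 := by ring
    _ ≤ m ^ 2 * (m * ∑ i ∈ s, f i ^ 4) := mul_le_mul_of_nonneg_left h2 (by positivity)
    _ = m ^ 3 * ∑ i ∈ s, f i ^ 4 := by ring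

private theorem td_four (x y : ℝ) : (x + y) ^ 4 ≤ 8 * (x ^ 4 + y ^ 4) := by
  have h1 : (x + y) ^ 2 ≤ 2 * (x ^ 2 + y ^ 2) := by nlinarith [sq_nonneg (x - y)]
  have h2 : (x ^ 2 + y ^ 2) ^ 2 ≤ 2 * (x ^ 4 + y ^ 4) := by
    nlinarith [sq_nonneg (x ^ 2 - y ^ 2)]
  calc (x + y) ^ 4 = ((x + y) ^ 2) ^ 2 := by ring
    _ ≤ (2 * (x ^ 2 + y ^ 2)) ^ 2 := pow_le_pow_left₀ (sq_nonneg _) h1 2
    _ = 4 * (x ^ 2 + y ^ 2) ^ 2 := by ring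
    _ ≤ 4 * (2 * (x ^ 4 + y ^ 4)) := by linarith
    _ = 8 * (x ^ 4 + y ^ 4) := by ring

/-- the combination of the three inequalities -/
private theorem td_comb {K : Type} (s₁ s₂ s₃ : Finset K) (S₀ : ℝ) (S₁ : K → ℝ)
    (S₂ : K → K → ℝ) (S₃ : K → K → K → ℝ) (N ν₁ ν₂ ν₃ m₁ m₂ : ℝ) (hN : 0 ≤ N)
    (hν₃ : 0 ≤ ν₃) (hm₁ : (s₁.card : ℝ) ≤ m₁) (hm₂ : (s₂.card : ℝ) ≤ m₂)
    (h1 : S₀ ^ 2 ≤ ν₁ * (N + ∑ a ∈ s₁, S₁ a))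
    (h2 : ∀ a, S₁ a ^ 2 ≤ ν₂ * (N + ∑ b ∈ s₂, S₂ a b))
    (h3 : ∀ a b, S₂ a b ^ 2 ≤ ν₃ * (N + ∑ c ∈ s₃, S₃ a b c)) :
    S₀ ^ 8 ≤ 8 * ν₁ ^ 4 * N ^ 4 + 16 * (ν₁ * m₁) ^ 4 * ν₂ ^ 2 * N ^ 2 +
      16 * (ν₁ * m₁) ^ 4 * (ν₂ * m₂) ^ 2 * ν₃ * N +
      16 * (ν₁ * m₁) ^ 3 * (ν₂ * m₂) * (ν₁ * ν₂ * ν₃) *
        ∑ a ∈ s₁, ∑ b ∈ s₂, ∑ c ∈ s₃, S₃ a b c := by
  have hm₁0 : 0 ≤ m₁ := le_trans (Nat.cast_nonneg _) hm₁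
  have hm₂0 : 0 ≤ m₂ := le_trans (Nat.cast_nonneg _) hm₂
  have k2 : ∀ a, ∑ b ∈ s₂, S₂ a b ^ 2 ≤ ν₃ * (m₂ * N + ∑ b ∈ s₂, ∑ c ∈ s₃, S₃ a b c) := by
    intro a
    calc ∑ b ∈ s₂, S₂ a b ^ 2 ≤ ∑ b ∈ s₂, ν₃ * (N + ∑ c ∈ s₃, S₃ a b c) :=
          Finset.sum_le_sum fun b _ => h3 a b
      _ = ν₃ * ((s₂.card : ℝ) * N + ∑ b ∈ s₂, ∑ c ∈ s₃, S₃ a b c) := by
          rw [← Finset.mul_sum, Finset.sum_add_distrib, Finset.sum_const, nsmul_eq_mul]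
      _ ≤ ν₃ * (m₂ * N + ∑ b ∈ s₂, ∑ c ∈ s₃, S₃ a b c) := by
          refine mul_le_mul_of_nonneg_left ?_ hν₃
          have := mul_le_mul_of_nonneg_right hm₂ hN
          linarith
  have k1 : ∀ a, S₁ a ^ 4 ≤ 2 * ν₂ ^ 2 * (N ^ 2 + m₂ * (ν₃ * (m₂ * N +
      ∑ b ∈ s₂, ∑ c ∈ s₃, S₃ a b c))) := by
    intro a
    have e1 : S₁ a ^ 4 ≤ (ν₂ * (N + ∑ b ∈ s₂, S₂ a b)) ^ 2 := by
      calc S₁ a ^ 4 = (S₁ a ^ 2) ^ 2 := by ring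
        _ ≤ _ := pow_le_pow_left₀ (sq_nonneg _) (h2 a) 2
    have e2 := td_pow2 s₂ (S₂ a) m₂ hm₂
    have e3 : (N + ∑ b ∈ s₂, S₂ a b) ^ 2 ≤ 2 * (N ^ 2 + (∑ b ∈ s₂, S₂ a b) ^ 2) := by
      nlinarith [sq_nonneg (N - ∑ b ∈ s₂, S₂ a b)]
    have e4 := mul_le_mul_of_nonneg_left (k2 a) hm₂0
    calc S₁ a ^ 4 ≤ (ν₂ * (N + ∑ b ∈ s₂, S₂ a b)) ^ 2 := e1
      _ = ν₂ ^ 2 * (N + ∑ b ∈ s₂, S₂ a b) ^ 2 := by ring
      _ ≤ ν₂ ^ 2 * (2 * (N ^ 2 + (∑ b ∈ s₂, S₂ a b) ^ 2)) :=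
        mul_le_mul_of_nonneg_left e3 (by positivity)
      _ = 2 * ν₂ ^ 2 * (N ^ 2 + (∑ b ∈ s₂, S₂ a b) ^ 2) := by ring
      _ ≤ _ := by
        refine mul_le_mul_of_nonneg_left ?_ (by positivity)
        linarith
  have k0 : ∑ a ∈ s₁, S₁ a ^ 4 ≤ 2 * ν₂ ^ 2 * (m₁ * N ^ 2 + m₂ * (ν₃ * (m₁ * (m₂ * N) +
      ∑ a ∈ s₁, ∑ b ∈ s₂, ∑ c ∈ s₃, S₃ a b c))) := by
    calc ∑ a ∈ s₁, S₁ a ^ 4 ≤ ∑ a ∈ s₁, 2 * ν₂ ^ 2 * (N ^ 2 + m₂ * (ν₃ * (m₂ * N +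
          ∑ b ∈ s₂, ∑ c ∈ s₃, S₃ a b c))) := Finset.sum_le_sum fun a _ => k1 a
      _ = 2 * ν₂ ^ 2 * ((s₁.card : ℝ) * N ^ 2 + m₂ * (ν₃ * ((s₁.card : ℝ) * (m₂ * N) +
          ∑ a ∈ s₁, ∑ b ∈ s₂, ∑ c ∈ s₃, S₃ a b c))) := by
          rw [← Finset.mul_sum, Finset.sum_add_distrib, Finset.sum_const, nsmul_eq_mul,
            ← Finset.mul_sum, ← Finset.mul_sum, Finset.sum_add_distrib, Finset.sum_const,
            nsmul_eq_mul]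
      _ ≤ _ := by
          have f1 := mul_le_mul_of_nonneg_right hm₁ (by positivity : (0 : ℝ) ≤ N ^ 2)
          have f2 := mul_le_mul_of_nonneg_right hm₁ (by positivity : (0 : ℝ) ≤ m₂ * N)
          gcongr
  have j1 := td_pow4 s₁ S₁ m₁ hm₁
  have j2 := td_four N (∑ a ∈ s₁, S₁ a)
  have j3 : S₀ ^ 8 ≤ (ν₁ * (N + ∑ a ∈ s₁, S₁ a)) ^ 4 := by
    calc S₀ ^ 8 = (S₀ ^ 2) ^ 4 := by ring
      _ ≤ _ := pow_le_pow_left₀ (sq_nonneg _) h1 4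
  have j4 := mul_le_mul_of_nonneg_left k0 (by positivity : (0 : ℝ) ≤ m₁ ^ 3)
  calc S₀ ^ 8 ≤ (ν₁ * (N + ∑ a ∈ s₁, S₁ a)) ^ 4 := j3
    _ = ν₁ ^ 4 * (N + ∑ a ∈ s₁, S₁ a) ^ 4 := by ring
    _ ≤ ν₁ ^ 4 * (8 * (N ^ 4 + (∑ a ∈ s₁, S₁ a) ^ 4)) :=
      mul_le_mul_of_nonneg_left j2 (by positivity)
    _ ≤ ν₁ ^ 4 * (8 * (N ^ 4 + m₁ ^ 3 * (2 * ν₂ ^ 2 * (m₁ * N ^ 2 + m₂ * (ν₃ * (m₁ * (m₂ * N) +
      ∑ a ∈ s₁, ∑ b ∈ s₂, ∑ c ∈ s₃, S₃ a b c)))))) := by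
        refine mul_le_mul_of_nonneg_left ?_ (by positivity)
        linarith
    _ = _ := by ring

/-- Row TD -/
theorem pf_TD (hWD : W_WD) : W_TD := by
  intro K _ _ L F B₁ B₂ B₃ N ν₁ ν₂ ν₃ m₁ m₂ hfin hF hB1 hB2 hB3 z1 z2 z3 c1 c2 c3 n1 n2 n3 M1 M2
  have hN0 : 0 ≤ N := le_trans (Nat.cast_nonneg _) c1
  have v3 : 0 ≤ ν₃ := le_trans (div_nonneg hN0 (Nat.cast_nonneg _)) n3
  refine td_comb (nd B₁) (nd B₂) (nd B₃) (‖∑' x : {x : K // x ∈ L}, F x‖)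
    (fun a => ‖∑' x : {x : K // x ∈ L}, dif a F x‖)
    (fun a b => ‖∑' x : {x : K // x ∈ L}, dif b (dif a F) x‖)
    (fun a b c => ‖∑' x : {x : K // x ∈ L}, dif c (dif b (dif a F)) x‖)
    N ν₁ ν₂ ν₃ m₁ m₂ hN0 v3 M1 M2 ?_ ?_ ?_
  · exact td_step hWD hfin hB1 z1 c1 n1 hF (fun x h => h)
  · intro a
    exact td_step hWD hfin hB2 z2 c2 n2 (td_norm hF a) (fun x h => td_supp h)
  · intro a b
    exact td_step hWD hfin hB3 z3 c3 n3 (td_norm (td_norm hF a) b)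
      (fun x h => td_supp (td_supp h))

end Pool.Agent.H68.SWL
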