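import Pool.Agent.H31.SW.Tools
import Pool.Agent.H31.SW.TargetsG
import Pool.Agent.H29.DW.Tools

/-!
# MP_52e316_nt, board swl_modules, row P3: three differences of a product of local data
-/

set_option autoImplicit false

open NumberField NumberField.InfinitePlace NumberField.Units
  NumberField.Units.dirichletUnitTheorem MeasureTheory Set Filter Complex
open scoped nonZeroDivisors ENNReal Topology

namespace Pool.Agent.H68.SWL

open Pool.Agent.H25.HK Pool.Agent.H23.LB Pool.Agent.H23.LC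
open Pool.Agent.H31.SW
open Pool.Agent.H29.DW (dg Rl lf wv Pos Wg cpar Ci om zs rv)

/-! ### Local part -/

private theorem dif_continuous {F : ℂ → ℂ} (h : Continuous F) (b : ℂ) : Continuous (dif b F) := by
  unfold dif
  exact (h.comp (continuous_id.add continuous_const)).mul (Complex.continuous_conj.comp h)

private theorem dif_zero {F : ℂ → ℂ} {b w : ℂ} (h : F w = 0) : dif b F w = 0 := by
  unfold dif
  rw [h, map_zero, mul_zero]

private theorem ld_nice (hHU : W_HU) {n : ℕ} {r t : Bool} {Λ a g : ℂ} {F : ℂ → ℂ}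
    (h : LDat n r t Λ a g F) : Continuous F ∧ ∃ R : ℝ, 0 ≤ R ∧ ∀ w, R < ‖w‖ → F w = 0 := by
  cases t with
  | true =>
    obtain ⟨h1, h2, h3, h4, h5, A, hA, rfl⟩ := h.one rfl
    have hΛ : Λ ≠ 0 := by
      rintro rfl
      rw [norm_zero] at h1
      linarith
    have hΛ0 : 0 < ‖Λ‖ := norm_pos_iff.2 hΛ
    have hV : DB 0 (fun _ => (1 : ℝ)) (Metric.ball (1 : ℂ) (1 / 50))
        (fun η => EE (Λ * psi a η)) := by
      refine ⟨?_, fun η _ => (norm_EE _).le⟩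
      intro η hη
      have e1 := ((hHU a h3 h4).2.1 η hη).continuousAt
      exact (continuous_EE.continuousAt.comp (continuousAt_const.mul e1)).continuousWithinAt
    have hA0 : DS 0 1 1 (1 / 500) A := hA.of_le (Nat.zero_le n)
    have hD := hA0.mul_DB' hV Metric.isOpen_ball (Metric.closedBall_subset_ball (by norm_num))
    have e : FT1 Λ a A = (fun z => A z * EE (Λ * psi a z)) ∘ (fun ζ => ζ / Λ) := rfl
    rw [e]
    refine ⟨hD.continuous.comp (continuous_id.div_const Λ), 2 * ‖Λ‖, by positivity, ?_⟩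
    intro w hw
    refine hD.eq_zero ?_
    have h6 : 2 < ‖w / Λ‖ := by
      rw [norm_div, lt_div_iff₀ hΛ0]
      exact hw
    have h7 : ‖w / Λ‖ ≤ ‖w / Λ - 1‖ + 1 := by
      calc ‖w / Λ‖ = ‖(w / Λ - 1) + 1‖ := by rw [sub_add_cancel]
        _ ≤ ‖w / Λ - 1‖ + ‖(1 : ℂ)‖ := norm_add_le _ _
        _ = ‖w / Λ - 1‖ + 1 := by rw [norm_one]
    linarith
  | false =>
    have hD := h.two rfl
    refine ⟨hD.continuous, ‖g‖ + 2, by positivity, ?_⟩
    intro w hw
    refine hD.eq_zero ?_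
    have h7 : ‖w‖ ≤ ‖w - g‖ + ‖g‖ := by
      calc ‖w‖ = ‖(w - g) + g‖ := by rw [sub_add_cancel]
        _ ≤ ‖w - g‖ + ‖g‖ := norm_add_le _ _
    linarith

private theorem Mt_one_le {n : ℕ} {r t : Bool} {Λ a g : ℂ} {F : ℂ → ℂ}
    (h : LDat n r t Λ a g F) : 1 ≤ Mt t Λ := by
  unfold Mt
  cases t with
  | true => simpa using (h.one rfl).1
  | false => simp

private theorem Ph_nonneg (t : Bool) (Λ b₁ b₂ b₃ : ℂ) : 0 ≤ Ph t Λ b₁ b₂ b₃ := by
  unfold Ph
  split_ifs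
  · positivity
  · exact le_rfl

private theorem rp {x : ℝ} (hx : 0 ≤ x) (k : ℕ) : x ^ (-(k : ℝ)) = (x ^ k)⁻¹ := by
  rw [Real.rpow_neg hx, Real.rpow_natCast]

/-- comparison of weights -/
private theorem wt_le {x J : ℝ} (hx : 0 ≤ x) (hJ : 0 < J) (k : ℕ) :
    (1 + x / J) ^ (-((k + 1 : ℕ) : ℝ)) ≤ (max 1 J) ^ (k + 1) * (1 + x) ^ (-(k : ℝ)) := by
  have hm : 1 ≤ max 1 J := le_max_left _ _
  have hm0 : 0 < max 1 J := by linarith
  have h1 : (1 + x) / max 1 J ≤ 1 + x / J := by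
    rw [div_le_iff₀ hm0, add_mul, one_mul]
    have h2 : x ≤ x / J * max 1 J := by
      rw [div_mul_eq_mul_div, le_div_iff₀ hJ]
      exact mul_le_mul_of_nonneg_left (le_max_right _ _) hx
    linarith
  have hpos : 0 < (1 + x) / max 1 J := by positivity
  have hxJ : 0 ≤ x / J := by positivity
  rw [rp (by linarith), rp (by linarith)]
  have h3 : ((1 + x) / max 1 J) ^ (k + 1) ≤ (1 + x / J) ^ (k + 1) :=
    pow_le_pow_left₀ hpos.le h1 _
  have h4 : ((1 + x / J) ^ (k + 1))⁻¹ ≤ (((1 + x) / max 1 J) ^ (k + 1))⁻¹ :=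
    inv_anti₀ (pow_pos hpos _) h3
  refine h4.trans ?_
  rw [div_pow, inv_div, div_eq_mul_inv]
  refine mul_le_mul_of_nonneg_left ?_ (by positivity)
  exact inv_anti₀ (by positivity) (pow_le_pow_right₀ (by linarith) (Nat.le_succ k))

/-! ### Global part -/

section

variable {K : Type} [Field K] [NumberField K]

private theorem dif_pF (F : InfinitePlace K → ℂ → ℂ) (y : InfinitePlace K → ℝ)
    (ω : InfinitePlace K → ℂ) (g : K) :
    dif g (pF F y ω) = pF (fun v => dif (wv v g y ω) (F v)) y ω := by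
  funext x
  unfold dif pF
  rw [map_prod, ← Finset.prod_mul_distrib]
  refine Finset.prod_congr rfl fun v _ => ?_
  rw [Pool.Agent.H29.DW.wv_add]

private theorem norm_ca (r x : K) : ‖ca K r x‖ = 1 := by
  unfold ca
  have h : (2 * Real.pi * I * ((Algebra.trace ℚ K (r * x) : ℚ) : ℂ) : ℂ) =
      ((2 * Real.pi * ((Algebra.trace ℚ K (r * x) : ℚ) : ℝ) : ℝ) : ℂ) * I := by
    push_cast
    ring
  rw [h]
  exact Complex.norm_exp_ofReal_mul_I _

private theorem PP_pos {R : InfinitePlace K → ℝ} (h : ∀ v, 0 < R v) : 0 < PP R :=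
  Finset.prod_pos fun v _ => pow_pos (h v) _

private theorem PP_div (R S : InfinitePlace K → ℝ) :
    PP (fun v => R v / S v) = PP R / PP S := by
  unfold PP
  rw [← Finset.prod_div_distrib]
  exact Finset.prod_congr rfl fun v _ => div_pow _ _ _

private theorem DD_pos {L : FI K} (hL : 0 < (FractionalIdeal.absNorm L : ℝ))
    (y : InfinitePlace K → ℝ) : 0 < DD L y := div_pos (Real.exp_pos _) hL

private theorem DD_du (hDU : T_DU) {L : FI K} (hL : L ≠ 0) (y : InfinitePlace K → ℝ) :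
    DD (du K L) (-y) = dK K / DD L y := by
  obtain ⟨-, -, -, h1, h2⟩ := hDU K L hL
  have h3 : (FractionalIdeal.absNorm (du K L) : ℝ) ≠ 0 := by
    intro h
    rw [h, zero_mul, zero_mul] at h2
    exact zero_ne_one h2
  have e1 : Real.exp (-(∑ v : InfinitePlace K, (v.mult : ℝ) * (-y) v) / 2) *
      Real.exp (-(∑ v : InfinitePlace K, (v.mult : ℝ) * y v) / 2) = 1 := by
    rw [← Real.exp_add, Real.exp_eq_one_iff]
    simp only [Pi.neg_apply, mul_neg, Finset.sum_neg_distrib]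
    ring
  rw [eq_div_iff (DD_pos h1 y).ne']
  unfold DD dK
  rw [div_mul_div_comm, e1, div_eq_iff (mul_ne_zero h3 h1.ne')]
  linarith

private theorem one_le_dK : 1 ≤ dK K := by
  unfold dK
  have h : (1 : ℤ) ≤ |discr K| := Int.one_le_abs (discr_ne_zero K)
  have h2 : ((1 : ℤ) : ℝ) ≤ ((|discr K| : ℤ) : ℝ) := by exact_mod_cast h
  simpa using h2

private theorem wv_ne {g : K} (hg : g ≠ 0) (v : InfinitePlace K) (y : InfinitePlace K → ℝ)
    {ω : InfinitePlace K → ℂ} (h : Pos ω) : wv v g y ω ≠ 0 := by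
  rw [← norm_pos_iff, Pool.Agent.H29.DW.norm_wv v g y h]
  exact mul_pos (InfinitePlace.pos_iff.2 hg) (Real.exp_pos _)

end

/-- the numbers -/
private theorem num3 {D M Q d B W : ℝ} (hD : 0 < D) (hM : 0 < M) (hQ : 0 < Q) (hd : 1 ≤ d)
    (hB : 0 ≤ B) (hW : 0 ≤ W) :
    D / Real.sqrt d * (B * M * Q ^ (-(1 / 2) : ℝ) * (W * (1 + d / D * (Q / M)))) ≤
      B * W * Real.sqrt d * (D * M * Q ^ (-(1 / 2) : ℝ) + Q ^ (1 / 2 : ℝ)) := by
  have hs1 : 1 ≤ Real.sqrt d := Real.one_le_sqrt.2 hd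
  have hs0 : 0 < Real.sqrt d := by linarith
  have hss : Real.sqrt d * Real.sqrt d = d := Real.mul_self_sqrt (by linarith)
  have hq : Q ^ (1 / 2 : ℝ) = Q ^ (-(1 / 2) : ℝ) * Q := by
    nth_rw 3 [← Real.rpow_one Q]
    rw [← Real.rpow_add hQ]
    norm_num
  have hq0 : 0 < Q ^ (-(1 / 2) : ℝ) := Real.rpow_pos_of_pos hQ _
  have e : D / Real.sqrt d * (B * M * Q ^ (-(1 / 2) : ℝ) * (W * (1 + d / D * (Q / M)))) =
      B * W * (D * M * Q ^ (-(1 / 2) : ℝ) / Real.sqrt d + Real.sqrt d * Q ^ (1 / 2 : ℝ)) := by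
    rw [hq]
    generalize hs : Real.sqrt d = s at *
    have hd' : d = s * s := hss.symm
    rw [hd']
    field_simp
  rw [e, mul_assoc (B * W)]
  refine mul_le_mul_of_nonneg_left ?_ (mul_nonneg hB hW)
  rw [mul_add]
  refine add_le_add ?_ le_rfl
  rw [div_le_iff₀ hs0]
  have h1 : 0 ≤ D * M * Q ^ (-(1 / 2) : ℝ) := by positivity
  have h2 : 1 ≤ Real.sqrt d * Real.sqrt d := by rw [hss]; exact hd
  nlinarith

/-- Row P3 -/
theorem pf_P3 (hL3 : W_L3) (hWS : W_WS) (hPO : W_PO) (hHU : W_HU) (hDU : T_DU) : W_P3 := by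
  classical
  intro n hn
  obtain ⟨C₀, hC₀, H3⟩ := hL3 (n + 2)
  obtain ⟨CW, hCW, HW⟩ := hWS n hn
  obtain ⟨C, hC1, hC0⟩ : ∃ C : ℝ, 1 ≤ C ∧ C₀ ≤ C := ⟨max 1 C₀, le_max_left _ _, le_max_right _ _⟩
  refine ⟨C ^ n * CW, by positivity, ?_⟩
  intro K _ _ hK L y ω t Λ a g F hL hω hF g₁ g₂ g₃ hg1 hg2 hg3 hb
  -- the local functions
  set b₁ : InfinitePlace K → ℂ := fun v => wv v g₁ y ω with hb1
  set b₂ : InfinitePlace K → ℂ := fun v => wv v g₂ y ω with hb2
  set b₃ : InfinitePlace K → ℂ := fun v => wv v g₃ y ω with hb3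
  set G : InfinitePlace K → ℂ → ℂ := fun v => dif (b₃ v) (dif (b₂ v) (dif (b₁ v) (F v))) with hG
  set P : InfinitePlace K → ℝ := fun v => Ph (t v) (Λ v) (b₁ v) (b₂ v) (b₃ v) with hP
  set M : InfinitePlace K → ℝ := fun v => Mt (t v) (Λ v) with hM
  have hM1 : ∀ v, 1 ≤ M v := fun v => Mt_one_le (hF v)
  have hM0 : ∀ v, 0 < M v := fun v => lt_of_lt_of_le one_pos (hM1 v)
  have hP0 : ∀ v, 0 ≤ P v := fun v => Ph_nonneg _ _ _ _ _
  have hQ0 : ∀ v, 0 < 1 + P v := fun v => by have := hP0 v; linarith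
  have hJ0 : ∀ v, 0 < (1 + P v) / M v := fun v => div_pos (hQ0 v) (hM0 v)
  -- the local bound
  have hloc : ∀ v X, Rl (rv v) X → ‖FF (rv v) (G v) X‖ ≤
      C * M v ^ dg (rv v) * (1 + P v) ^ (-(dg (rv v) : ℝ) / 2) *
        (1 + ‖X‖ / ((1 + P v) / M v)) ^ (-((n + 1 + 1 : ℕ) : ℝ)) := by
    intro v X hX
    have h1 := H3 (rv v) (t v) (Λ v) (a v) (g v) (b₁ v) (b₂ v) (b₃ v) X (F v) (hF v)
      (Pool.Agent.H29.DW.Rl_wv v g₁ y hω) (Pool.Agent.H29.DW.Rl_wv v g₂ y hω)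
      (Pool.Agent.H29.DW.Rl_wv v g₃ y hω)
      (fun ht => ⟨wv_ne hg1 v y hω, wv_ne hg2 v y hω, wv_ne hg3 v y hω, hb v ht⟩) hX
    have e1 : ‖X‖ / ((1 + P v) / M v) = ‖X‖ * Mt (t v) (Λ v) /
        (1 + Ph (t v) (Λ v) (b₁ v) (b₂ v) (b₃ v)) := by
      rw [div_div_eq_mul_div]
    rw [e1]
    refine h1.trans ?_
    have h2 : 0 ≤ Mt (t v) (Λ v) := (hM0 v).le
    have h3 : 0 ≤ 1 + Ph (t v) (Λ v) (b₁ v) (b₂ v) (b₃ v) := (hQ0 v).le
    gcongr
  -- Poisson summation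
  have hnice := fun v => ld_nice hHU (hF v)
  choose hcont R hR0 hR using hnice
  have hGc : ∀ v, Continuous (G v) := fun v =>
    dif_continuous (dif_continuous (dif_continuous (hcont v) _) _) _
  have hGs : ∃ R' : ℝ, ∀ v w, R' < ‖w‖ → G v w = 0 := by
    refine ⟨∑ v, R v, fun v w hw => ?_⟩
    have h1 : R v ≤ ∑ v, R v := Finset.single_le_sum (fun v _ => hR0 v) (Finset.mem_univ v)
    exact dif_zero (dif_zero (dif_zero (hR v w (by linarith))))
  have hGd : ∃ C' : ℝ, ∀ v ξ, Rl (rv v) ξ → ‖FF (rv v) (G v) ξ‖ ≤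
      C' * (1 + ‖ξ‖) ^ (-(Module.finrank ℚ K + 1 : ℝ)) := by
    set c : InfinitePlace K → ℝ := fun v => C * M v ^ dg (rv v) *
      (1 + P v) ^ (-(dg (rv v) : ℝ) / 2) * (max 1 ((1 + P v) / M v)) ^ (n + 1 + 1) with hc
    have hc0 : ∀ v, 0 ≤ c v := by
      intro v
      have h2 := hM0 v
      have h3 := hQ0 v
      positivity
    refine ⟨∑ v, c v, fun v ξ hξ => ?_⟩
    have h1 := hloc v ξ hξ
    have h2 := wt_le (norm_nonneg ξ) (hJ0 v) (n + 1)
    have h3 : c v ≤ ∑ v, c v := Finset.single_le_sum (fun v _ => hc0 v) (Finset.mem_univ v)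
    have e : (-(Module.finrank ℚ K + 1 : ℝ)) = (-((n + 1 : ℕ) : ℝ)) := by
      rw [hK]
      push_cast
      ring
    rw [e]
    have h4 : 0 ≤ (1 + ‖ξ‖) ^ (-((n + 1 : ℕ) : ℝ)) := by positivity
    have h5 : 0 ≤ C * M v ^ dg (rv v) * (1 + P v) ^ (-(dg (rv v) : ℝ) / 2) := by
      have h2 := hM0 v
      have h3 := hQ0 v
      positivity
    calc ‖FF (rv v) (G v) ξ‖ ≤ _ := h1
      _ ≤ C * M v ^ dg (rv v) * (1 + P v) ^ (-(dg (rv v) : ℝ) / 2) *
          ((max 1 ((1 + P v) / M v)) ^ (n + 1 + 1) * (1 + ‖ξ‖) ^ (-((n + 1 : ℕ) : ℝ))) :=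
        mul_le_mul_of_nonneg_left h2 h5
      _ = c v * (1 + ‖ξ‖) ^ (-((n + 1 : ℕ) : ℝ)) := by rw [hc]; ring
      _ ≤ _ := mul_le_mul_of_nonneg_right h3 h4
  obtain ⟨hsum, hpo⟩ := hPO K L 0 G hL hGc hGs hGd y ω hω
  have hdif : dif g₃ (dif g₂ (dif g₁ (pF F y ω))) = pF G y ω := by
    rw [dif_pF, dif_pF, dif_pF]
  have e0 : ∑' x : {x : K // x ∈ L}, dif g₃ (dif g₂ (dif g₁ (pF F y ω))) x =
      ∑' x : {x : K // x ∈ L}, pF G y ω (0 + x) := by
    rw [hdif]
    exact tsum_congr fun x => by rw [zero_add]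
  rw [e0, hpo, norm_mul, Complex.norm_real]
  obtain ⟨hdu0, -, -, hLn, -⟩ := hDU K L hL
  have hDD := DD_pos hLn y
  have hd1 := one_le_dK (K := K)
  have hDs : 0 ≤ DD L y / Real.sqrt (dK K) := by positivity
  rw [Real.norm_of_nonneg hDs]
  -- the dual sum
  obtain ⟨hWs, hWb⟩ := HW K hK (du K L) (-y) (fun v => (starRingEnd ℂ) (ω v))
    (fun v => (1 + P v) / M v) (n + 1 + 1) hdu0 (Pool.Agent.H29.DW.Pos.conj hω) hJ0 (by omega)
  set A : ℝ := ∏ v : InfinitePlace K,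
    (C * M v ^ dg (rv v) * (1 + P v) ^ (-(dg (rv v) : ℝ) / 2)) with hA
  have hA0 : 0 ≤ A := Finset.prod_nonneg fun v _ => by
    have h2 := hM0 v
    have h3 := hQ0 v
    positivity
  have hterm : ∀ x : {x : K // x ∈ du K L}, ‖∏ v, FF (rv v) (G v)
      (2 * Real.pi * dg (rv v) * wv v x (-y) (fun v => (starRingEnd ℂ) (ω v)))‖ ≤
      A * ∏ v : InfinitePlace K, (1 + ‖wv v x.1 (-y) (fun v => (starRingEnd ℂ) (ω v))‖ /
        ((1 + P v) / M v)) ^ (-((n + 1 + 1 : ℕ) : ℝ)) := by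
    intro x
    rw [norm_prod, hA, ← Finset.prod_mul_distrib]
    refine Finset.prod_le_prod (fun v _ => norm_nonneg _) fun v _ => ?_
    have hRl : Rl (rv v) (2 * Real.pi * dg (rv v) *
        wv v x.1 (-y) (fun v => (starRingEnd ℂ) (ω v))) := by
      have h1 : (2 * Real.pi * dg (rv v) : ℂ) = ((2 * Real.pi * (dg (rv v) : ℝ) : ℝ) : ℂ) := by
        push_cast
        ring
      rw [h1]
      exact Rl_mul (Rl_ofReal _ _)
        (Pool.Agent.H29.DW.Rl_wv v x.1 (-y) (Pool.Agent.H29.DW.Pos.conj hω))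
    refine (hloc v _ hRl).trans ?_
    have h5 : 0 ≤ C * M v ^ dg (rv v) * (1 + P v) ^ (-(dg (rv v) : ℝ) / 2) := by
      have h2 := hM0 v
      have h3 := hQ0 v
      positivity
    refine mul_le_mul_of_nonneg_left ?_ h5
    have h6 : ‖wv v x.1 (-y) (fun v => (starRingEnd ℂ) (ω v))‖ ≤
        ‖(2 * Real.pi * dg (rv v) * wv v x.1 (-y) (fun v => (starRingEnd ℂ) (ω v)) : ℂ)‖ := by
      have h1 : (2 * Real.pi * dg (rv v) : ℂ) = ((2 * Real.pi * (dg (rv v) : ℝ) : ℝ) : ℂ) := by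
        push_cast
        ring
      have h7 : (1 : ℝ) ≤ dg (rv v) := by
        rw [Pool.Agent.H29.DW.dg_rv]
        exact_mod_cast (Pool.Agent.H29.DW.mult_pos' v).1
      have h8 := Real.pi_gt_three
      have h9 : (1 : ℝ) ≤ 2 * Real.pi * (dg (rv v) : ℝ) := by nlinarith
      rw [norm_mul, h1, Complex.norm_real, Real.norm_of_nonneg (by linarith)]
      exact le_mul_of_one_le_left (norm_nonneg _) h9
    have hJ := hJ0 v
    rw [rp (by positivity), rp (by positivity)]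
    refine inv_anti₀ (by positivity) (pow_le_pow_left₀ (by positivity) ?_ _)
    gcongr
  have hb0 : ‖∑' x : {x : K // x ∈ du K L}, ca K 0 x * ∏ v, FF (rv v) (G v)
      (2 * Real.pi * dg (rv v) * wv v x (-y) (fun v => (starRingEnd ℂ) (ω v)))‖ ≤
      A * (CW * (1 + DD (du K L) (-y) * PP (fun v => (1 + P v) / M v))) := by
    have hn1 : ∀ x : {x : K // x ∈ du K L}, ‖ca K 0 (x : K) * ∏ v, FF (rv v) (G v)
        (2 * Real.pi * dg (rv v) * wv v x (-y) (fun v => (starRingEnd ℂ) (ω v)))‖ =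
        ‖∏ v, FF (rv v) (G v)
          (2 * Real.pi * dg (rv v) * wv v x (-y) (fun v => (starRingEnd ℂ) (ω v)))‖ := by
      intro x
      rw [norm_mul, norm_ca, one_mul]
    have hs1 : Summable (fun x : {x : K // x ∈ du K L} => ‖ca K 0 (x : K) * ∏ v, FF (rv v) (G v)
        (2 * Real.pi * dg (rv v) * wv v x (-y) (fun v => (starRingEnd ℂ) (ω v)))‖) := by
      refine hsum.congr fun x => ?_
      exact (hn1 x).symm
    refine (norm_tsum_le_tsum_norm hs1).trans ?_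
    have hs2 := hWs.mul_left A
    refine (hs1.tsum_le_tsum (fun x => (hn1 x).le.trans (hterm x)) hs2).trans ?_
    rw [tsum_mul_left]
    exact mul_le_mul_of_nonneg_left hWb hA0
  have hPPQ : 0 < PP (fun v => 1 + P v) := PP_pos hQ0
  have hPPM : 0 < PP M := PP_pos hM0
  have hAle : A ≤ C ^ n * PP M * PP (fun v => 1 + P v) ^ (-(1 / 2) : ℝ) := by
    have e1 : A = C ^ Fintype.card (InfinitePlace K) * PP M *
        PP (fun v => 1 + P v) ^ (-(1 / 2) : ℝ) := by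
      rw [hA, Finset.prod_mul_distrib, Finset.prod_mul_distrib, Finset.prod_const,
        Finset.card_univ]
      congr 1
      · congr 1
        exact Finset.prod_congr rfl fun v _ => by rw [Pool.Agent.H29.DW.dg_rv]
      · unfold PP
        rw [← Real.finsetProd_rpow _ _ (fun v _ => pow_nonneg (hQ0 v).le _)]
        refine Finset.prod_congr rfl fun v _ => ?_
        rw [← Real.rpow_natCast, ← Real.rpow_mul (hQ0 v).le, Pool.Agent.H29.DW.dg_rv]
        congr 1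
        ring
    rw [e1]
    have h1 : C ^ Fintype.card (InfinitePlace K) ≤ C ^ n :=
      pow_le_pow_right₀ hC1 (Pool.Agent.H29.DW.card_places_le hK)
    gcongr
  have hfin := num3 hDD hPPM hPPQ hd1 (by positivity : (0 : ℝ) ≤ C ^ n)
    (by linarith : (0 : ℝ) ≤ CW)
  refine (mul_le_mul_of_nonneg_left hb0 hDs).trans (le_trans ?_ hfin)
  rw [DD_du hDU hL, PP_div]
  refine mul_le_mul_of_nonneg_left ?_ hDs
  refine mul_le_mul_of_nonneg_right hAle ?_
  positivity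

end Pool.Agent.H68.SWL
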